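import Pool.Agent.W856.CornerDefs

/-!
Definitions for the theorem on corner-free sets with lines decided by votes: weighted votes of
circuits with a margin, Boolean functions of votes, and the approximate spectral norm.
-/

set_option autoImplicit false

namespace Pool.Agent.L0h67.CV

open Pool.Agent.W856.Corner

/-- The value at `y` of the vote of the sets `F 0, …, F (N - 1)` with the real weights `c j`: the
set `F j` votes `1` at its elements and `-1` at the other points. -/
noncomputable def vote {n N : ℕ} (c : Fin N → ℝ) (F : Fin N → Set (V n)) (y : V n) : ℝ :=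
  open Classical in ∑ j, c j * (if y ∈ F j then 1 else -1)

/-- The set `S` is decided by a weighted vote (a threshold gate) with margin. The voters are any
number `N` of sets which are computed by circuits (`Computed`: at most `s` AND and OR gates, depth at
most `d`, free `MOD p` gates, input nodes of degree at most `k` over `Z/p`); the weights are real
and the sum of their absolute values is at most `M`. The value of the vote is at least `1` on `S` and
at most `-1` outside of `S`, and its absolute value is at most `R` everywhere. (The last condition
always holds for `R = M`.) -/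
def Voted (p k s d M R : ℕ) {n : ℕ} (S : Set (V n)) : Prop :=
  ∃ (N : ℕ) (c : Fin N → ℝ) (F : Fin N → Set (V n)), (∀ j, Computed p k s d (F j)) ∧
    ∑ j, |c j| ≤ M ∧ (∀ y ∈ S, 1 ≤ vote c F y) ∧ (∀ y, y ∉ S → vote c F y ≤ -1) ∧
    ∀ y, |vote c F y| ≤ R

/-- Whether `y` belongs to `S` depends only on the outcomes of `l` votes (`Voted`) at `y`; for
instance, `S` is the intersection of `l` sets which are decided by votes. -/
def Decided (p k s d l M R : ℕ) {n : ℕ} (S : Set (V n)) : Prop :=
  ∃ W : Fin l → Set (V n), (∀ j, Voted p k s d M R (W j)) ∧
    ∀ y y', (∀ j, y ∈ W j ↔ y' ∈ W j) → (y ∈ S ↔ y' ∈ S)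

/-- The indicator function of `S` is approximated everywhere, with an error of at most `1 / 3`, by a
real linear combination of phases `(-1) ^ f`, the `f` being Boolean functions of degree at most `k`
over `Z/p`, such that the sum of the absolute values of the coefficients is at most `M`. For `p = 2`
and `k = 1` the phases are, up to sign, the characters of `F_2^n`, so that the condition says that
some real function with spectral norm (the `ℓ^1` norm of the Fourier transform) at most `M` has
distance at most `1 / 3` from the indicator function: the approximate spectral norm of `S` is at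
most `M`. -/
def ApproxNorm (p k M : ℕ) {n : ℕ} (S : Set (V n)) : Prop :=
  ∃ (N : ℕ) (c : Fin N → ℝ) (f : Fin N → V n → Bool), (∀ j, HasDegree p k (f j)) ∧
    ∑ j, |c j| ≤ M ∧
    ∀ y, |(∑ j, c j * (if f j y = true then -1 else 1)) - S.indicator (fun _ => (1 : ℝ)) y| ≤ 1 / 3

/-- Every row of `A` (or every column, or every diagonal) is a union of `T` sets of the class `𝒞`;
or `A` itself, as a set of strings of `2 n` bits, is a union of `T` sets of the class `𝒞`. -/
def LinesOrSelf (𝒞 : ∀ m : ℕ, Set (V m) → Prop) (T : ℕ) {n : ℕ} (A : Finset (V n × V n)) : Prop :=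
  (∃ L : V n → Set (V n), IsLines A L ∧
    ∀ x, ∃ F : Fin T → Set (V n), (∀ i, 𝒞 n (F i)) ∧ L x = ⋃ i, F i) ∨
  ∃ F : Fin T → Set (V (n + n)), (∀ i, 𝒞 (n + n) (F i)) ∧
    ∀ x y, (x, y) ∈ A ↔ ∃ i, Fin.append x y ∈ F i

end Pool.Agent.L0h67.CV
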