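import Pool.Agent.L0h67.CV.Ineq

/-!
The choice of the parameters, and the bounds for corner-free sets with lines decided by votes.
-/

set_option autoImplicit false

namespace Pool.Agent.L0h67.CV

open Finset Pool.Agent.W856.Corner

theorem numerics' (n l D0 M R : ℕ) (hl : 1 ≤ l) (hD0 : 1 ≤ D0) (hM : 1 ≤ M) (hR : 1 ≤ R)
    (T a : ℝ) (hT : 0 ≤ T) (ha0 : a ≤ T * 4 ^ n)
    (ha : ∀ m D : ℕ, a ≤ T * (2 * 2 ^ n * (∑ i ∈ range (l * (wdw m M R * D0) + D + 1),
      (n.choose i : ℝ)) + 2 ^ n * (2 ^ n * (l * (2 ^ n * (2 * Real.exp (-(m / (16 * (M : ℝ) ^ 2))))))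
        / ∑ i ∈ range (D + 1), (n.choose i : ℝ)))) :
    a ≤ 10 ^ 8 * T * ((l * M * R * D0 : ℕ) : ℝ) ^ 3 * 4 ^ n *
      Real.exp (-(n : ℝ) / (10 ^ 8 * ((l * M * R * D0 : ℕ) : ℝ) ^ 2)) := by
  set Q : ℝ := ((l * M * R * D0 : ℕ) : ℝ) with hQ
  have hlr : (1 : ℝ) ≤ l := by exact_mod_cast hl
  have hDr : (1 : ℝ) ≤ D0 := by exact_mod_cast hD0
  have hMr : (1 : ℝ) ≤ M := by exact_mod_cast hM
  have hRr : (1 : ℝ) ≤ R := by exact_mod_cast hR
  have hn0 : (0 : ℝ) ≤ n := Nat.cast_nonneg n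
  have h4n : (0 : ℝ) < 4 ^ n := by positivity
  have hQe : Q = l * M * R * D0 := by rw [hQ]; push_cast; rfl
  have hlD : (1 : ℝ) ≤ l * D0 := one_le_mul_of_one_le_of_one_le hlr hDr
  have hMR : (1 : ℝ) ≤ M * R := one_le_mul_of_one_le_of_one_le hMr hRr
  have hQ1 : 1 ≤ Q := by
    rw [hQe]
    calc (1 : ℝ) ≤ (l * D0) * (M * R) := one_le_mul_of_one_le_of_one_le hlD hMR
      _ = _ := by ring
  have hQ0 : 0 < Q := by linarith
  have hQ2 : (1 : ℝ) ≤ Q ^ 2 := one_le_pow₀ hQ1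
  have hQ3 : (1 : ℝ) ≤ Q ^ 3 := one_le_pow₀ hQ1
  have hlQ : (l : ℝ) ≤ Q := by
    rw [hQe]
    calc (l : ℝ) = l * 1 := (mul_one _).symm
      _ ≤ l * (M * R * D0) := mul_le_mul_of_nonneg_left
          (one_le_mul_of_one_le_of_one_le hMR hDr) (by linarith)
      _ = _ := by ring
  have hlDQ : (l : ℝ) * D0 ≤ Q := by
    rw [hQe]
    calc (l : ℝ) * D0 = l * D0 * 1 := (mul_one _).symm
      _ ≤ l * D0 * (M * R) := mul_le_mul_of_nonneg_left hMR (by linarith)
      _ = _ := by ring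
  have hlDRQ : (l : ℝ) * D0 * R / M ≤ Q := by
    rw [div_le_iff₀ (by linarith), hQe]
    have h1 : (1 : ℝ) ≤ (M : ℝ) * M := one_le_mul_of_one_le_of_one_le hMr hMr
    calc (l : ℝ) * D0 * R = l * D0 * R * 1 := (mul_one _).symm
      _ ≤ l * D0 * R * (M * M) := mul_le_mul_of_nonneg_left h1 (by positivity)
      _ = _ := by ring
  set r : ℝ := 1 / (6144 * Q) with hr
  have hr0 : 0 < r := by positivity
  have hrQ : r * Q = 1 / 6144 := by
    rw [hr]; field_simp
  have hr1 : r ≤ 1 / 80 := by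
    rw [hr]
    exact one_div_le_one_div_of_le (by norm_num) (by linarith)
  have hr2 : r ^ 2 * Q ^ 2 = 1 / 37748736 := by
    rw [← mul_pow, hrQ]; norm_num
  have hexp : Real.exp (-(r ^ 2 * n / 2)) ≤ Real.exp (-(n : ℝ) / (10 ^ 8 * Q ^ 2)) := by
    rw [Real.exp_le_exp, neg_div, neg_le_neg_iff, div_le_iff₀ (by positivity)]
    calc (n : ℝ) ≤ n * (10 ^ 8 / 75497472) := by nlinarith
      _ = (r ^ 2 * Q ^ 2) * n / 2 * 10 ^ 8 := by rw [hr2]; ring
      _ = _ := by ring
  have hfin : a ≤ 10 ^ 8 * T * Q ^ 3 * 4 ^ n * Real.exp (-(r ^ 2 * n / 2)) := by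
    by_cases hcase : r * n < 12 * Q
    · have h1 : r ^ 2 * n / 2 ≤ 1 / 2 := by
        have h2 : r * (r * n) ≤ r * (12 * Q) := mul_le_mul_of_nonneg_left hcase.le hr0.le
        nlinarith
      have h2 : 1 / 2 ≤ Real.exp (-(r ^ 2 * n / 2)) := by
        have := Real.add_one_le_exp (-(r ^ 2 * n / 2))
        linarith
      calc a ≤ T * 4 ^ n * 1 := by linarith
        _ ≤ T * 4 ^ n * (10 ^ 8 * Q ^ 3 * Real.exp (-(r ^ 2 * n / 2))) := by
            refine mul_le_mul_of_nonneg_left ?_ (by positivity)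
            nlinarith
        _ = _ := by ring
    push Not at hcase
    have hcase1 : 1 ≤ r * n := by linarith
    set D := ⌊(n : ℝ) / 2 - r * n⌋₊ with hD
    set m := ⌈768 * (M : ℝ) ^ 2 * r ^ 2 * n⌉₊ with hm
    have hrn : r * n ≤ 1 / 80 * n := mul_le_mul_of_nonneg_right hr1 hn0
    have hD1 : (D : ℝ) ≤ n / 2 - r * n := Nat.floor_le (by linarith)
    have hD2 : (n : ℝ) / 2 - r * n - 1 ≤ D := by
      have := Nat.lt_floor_add_one ((n : ℝ) / 2 - r * n)
      linarith
    have hm1 : 768 * (M : ℝ) ^ 2 * r ^ 2 * n ≤ m := Nat.le_ceil _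
    have hm2 : (m : ℝ) ≤ 768 * (M : ℝ) ^ 2 * r ^ 2 * n + 1 :=
      (Nat.ceil_lt_add_one (by positivity)).le
    have hDn : D ≤ n / 2 := by
      rw [Nat.le_div_iff_mul_le (by norm_num)]
      have : ((D * 2 : ℕ) : ℝ) ≤ n := by
        push_cast
        have : 0 ≤ r * n := by positivity
        linarith
      exact_mod_cast this
    have hM0 : (0 : ℝ) < M := by linarith
    -- the degree
    have hw : (wdw m M R : ℝ) ≤ 2 * m * R / M + 1 := by
      unfold wdw
      push_cast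
      have := Nat.floor_le (show (0 : ℝ) ≤ 2 * m * R / M by positivity)
      linarith
    have hdeg : ((l * (wdw m M R * D0) : ℕ) : ℝ) ≤ r * n / 2 := by
      push_cast
      have h1 : (l : ℝ) * (wdw m M R * D0) ≤ l * D0 * (2 * m * R / M + 1) := by
        calc (l : ℝ) * (wdw m M R * D0) = l * D0 * wdw m M R := by ring
          _ ≤ _ := mul_le_mul_of_nonneg_left hw (by positivity)
      have h2 : (l : ℝ) * D0 * (2 * m * R / M) ≤
          l * D0 * (2 * (768 * (M : ℝ) ^ 2 * r ^ 2 * n + 1) * R / M) := by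
        refine mul_le_mul_of_nonneg_left ?_ (by positivity)
        refine div_le_div_of_nonneg_right ?_ hM0.le
        refine mul_le_mul_of_nonneg_right ?_ (by linarith)
        linarith
      have h3 : (l : ℝ) * D0 * (2 * (768 * (M : ℝ) ^ 2 * r ^ 2 * n + 1) * R / M) =
          1536 * (r * Q) * (r * n) + 2 * (l * D0 * R / M) := by
        rw [hQe]
        field_simp
        ring
      rw [h3, hrQ] at h2
      linarith
    have hS1 := binom_half n (l * (wdw m M R * D0) + D) (r / 2) (by linarith) (by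
      push_cast at hdeg ⊢
      linarith)
    have hS1' : ∑ i ∈ range (l * (wdw m M R * D0) + D + 1), (n.choose i : ℝ) ≤
        2 ^ n * Real.exp (-(r ^ 2 * n / 2)) := by
      refine hS1.trans (le_of_eq ?_)
      congr 2
      ring
    have hlow := choose_lower n D r hr0 hr1 hcase1 hDn hD2
    have hSD : (n.choose D : ℝ) ≤ ∑ i ∈ range (D + 1), (n.choose i : ℝ) := by
      refine Finset.single_le_sum (f := fun i => (n.choose i : ℝ)) (fun i _ => Nat.cast_nonneg _) ?_
      simp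
    have hSDpos : (0 : ℝ) < ∑ i ∈ range (D + 1), (n.choose i : ℝ) := by
      refine lt_of_lt_of_le ?_ hSD
      exact_mod_cast Nat.choose_pos (by omega)
    set SD := ∑ i ∈ range (D + 1), (n.choose i : ℝ) with hSDdef
    have hm3 : Real.exp (-(m / (16 * (M : ℝ) ^ 2))) ≤ Real.exp (-(48 * r ^ 2 * n)) := by
      rw [Real.exp_le_exp, neg_le_neg_iff, le_div_iff₀ (by positivity)]
      calc 48 * r ^ 2 * n * (16 * (M : ℝ) ^ 2) = 768 * (M : ℝ) ^ 2 * r ^ 2 * n := by ring
        _ ≤ _ := hm1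
    have hn1 : ((n : ℝ) + 1) * Real.exp (-(r ^ 2 * n)) ≤ 37748736 * Q ^ 2 := by
      have h1 : r ^ 2 * n + 1 ≤ Real.exp (r ^ 2 * n) := Real.add_one_le_exp _
      have h3 : r ^ 2 ≤ 1 := by nlinarith
      have h4 : (n : ℝ) + 1 ≤ 37748736 * Q ^ 2 * Real.exp (r ^ 2 * n) := by
        have h5 : r ^ 2 * ((n : ℝ) + 1) ≤
            r ^ 2 * (37748736 * Q ^ 2 * Real.exp (r ^ 2 * n)) := by
          calc r ^ 2 * ((n : ℝ) + 1) = r ^ 2 * n + r ^ 2 := by ring
            _ ≤ Real.exp (r ^ 2 * n) := by linarith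
            _ = 37748736 * (r ^ 2 * Q ^ 2) * Real.exp (r ^ 2 * n) := by rw [hr2]; ring
            _ = _ := by ring
        exact le_of_mul_le_mul_left h5 (by positivity)
      rw [Real.exp_neg, ← div_eq_mul_inv, div_le_iff₀ (Real.exp_pos _)]
      exact h4
    have hterm2 : (2 : ℝ) ^ n * (2 ^ n * (l * (2 ^ n * (2 * Real.exp (-(m / (16 * (M : ℝ) ^ 2))))))
        / SD) ≤ 75497472 * Q ^ 3 * 4 ^ n * Real.exp (-(r ^ 2 * n / 2)) := by
      have h1 : (2 : ℝ) ^ n * Real.exp (-(m / (16 * (M : ℝ) ^ 2))) / SD ≤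
          (n + 1) * Real.exp (-(24 * r ^ 2 * n)) := by
        rw [div_le_iff₀ hSDpos]
        calc (2 : ℝ) ^ n * Real.exp (-(m / (16 * (M : ℝ) ^ 2)))
            ≤ 2 ^ n * Real.exp (-(48 * r ^ 2 * n)) :=
              mul_le_mul_of_nonneg_left hm3 (by positivity)
          _ = (2 ^ n * Real.exp (-(24 * r ^ 2 * n))) * Real.exp (-(24 * r ^ 2 * n)) := by
              rw [mul_assoc (2 ^ n : ℝ), ← Real.exp_add]; congr 2; ring
          _ ≤ ((n + 1) * SD) * Real.exp (-(24 * r ^ 2 * n)) :=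
              mul_le_mul_of_nonneg_right
                (hlow.trans (mul_le_mul_of_nonneg_left hSD (by positivity))) (Real.exp_pos _).le
          _ = _ := by ring
      have h2 : ((n : ℝ) + 1) * Real.exp (-(24 * r ^ 2 * n)) ≤
          37748736 * Q ^ 2 * Real.exp (-(r ^ 2 * n / 2)) := by
        have e1 : Real.exp (-(24 * r ^ 2 * n)) =
            Real.exp (-(r ^ 2 * n)) * Real.exp (-(23 * r ^ 2 * n)) := by
          rw [← Real.exp_add]; congr 1; ring
        have e2 : Real.exp (-(23 * r ^ 2 * n)) ≤ Real.exp (-(r ^ 2 * n / 2)) := by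
          rw [Real.exp_le_exp]
          have : 0 ≤ r ^ 2 * n := by positivity
          linarith
        rw [e1, ← mul_assoc]
        exact mul_le_mul hn1 e2 (Real.exp_pos _).le (by positivity)
      have h44 : (2 : ℝ) ^ n * 2 ^ n = 4 ^ n := by rw [← mul_pow]; norm_num
      calc (2 : ℝ) ^ n * (2 ^ n * (l * (2 ^ n * (2 * Real.exp (-(m / (16 * (M : ℝ) ^ 2)))))) / SD)
          = 2 * l * (2 ^ n * 2 ^ n) * ((2 : ℝ) ^ n * Real.exp (-(m / (16 * (M : ℝ) ^ 2))) / SD) := by
            ring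
        _ ≤ 2 * l * (2 ^ n * 2 ^ n) * (37748736 * Q ^ 2 * Real.exp (-(r ^ 2 * n / 2))) :=
            mul_le_mul_of_nonneg_left (h1.trans h2) (by positivity)
        _ = l * (75497472 * Q ^ 2 * 4 ^ n * Real.exp (-(r ^ 2 * n / 2))) := by rw [h44]; ring
        _ ≤ Q * (75497472 * Q ^ 2 * 4 ^ n * Real.exp (-(r ^ 2 * n / 2))) :=
            mul_le_mul_of_nonneg_right hlQ (by positivity)
        _ = _ := by ring
    have hterm1 : 2 * (2 : ℝ) ^ n * (∑ i ∈ range (l * (wdw m M R * D0) + D + 1),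
        (n.choose i : ℝ)) ≤ 2 * 4 ^ n * Real.exp (-(r ^ 2 * n / 2)) := by
      calc _ ≤ 2 * (2 : ℝ) ^ n * (2 ^ n * Real.exp (-(r ^ 2 * n / 2))) :=
            mul_le_mul_of_nonneg_left hS1' (by positivity)
        _ = 2 * ((2 : ℝ) ^ n * 2 ^ n) * Real.exp (-(r ^ 2 * n / 2)) := by ring
        _ = _ := by rw [← mul_pow]; norm_num
    have hpos : 0 < 4 ^ n * Real.exp (-(r ^ 2 * n / 2)) := by positivity
    calc a ≤ _ := ha m D
      _ ≤ T * (2 * 4 ^ n * Real.exp (-(r ^ 2 * n / 2)) +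
          75497472 * Q ^ 3 * 4 ^ n * Real.exp (-(r ^ 2 * n / 2))) :=
          mul_le_mul_of_nonneg_left (add_le_add hterm1 hterm2) hT
      _ = T * ((2 + 75497472 * Q ^ 3) * (4 ^ n * Real.exp (-(r ^ 2 * n / 2)))) := by ring
      _ ≤ T * ((10 ^ 8 * Q ^ 3) * (4 ^ n * Real.exp (-(r ^ 2 * n / 2)))) := by
          refine mul_le_mul_of_nonneg_left (mul_le_mul_of_nonneg_right ?_ hpos.le) hT
          linarith
      _ = _ := by ring
  refine hfin.trans (mul_le_mul_of_nonneg_left hexp ?_)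
  positivity

/-- The parameter of the bound. -/
def loss (p k s d l M R : ℕ) : ℕ := l * M * R * voterDegree p k s d M

section

variable {p k s d l M R n : ℕ}

theorem decided_bound (hp : p.Prime) (hk : 1 ≤ k) (hl : 1 ≤ l) (hM : 1 ≤ M) (hR : 1 ≤ R)
    (A : Finset (V n × V n)) (hA : CornerFree A) (L : V n → Set (V n)) (hL : IsLines A L) (T : ℕ)
    (h : ∀ x, ∃ F : Fin T → Set (V n), (∀ i, Decided p k s d l M R (F i)) ∧ L x = ⋃ i, F i) :
    (A.card : ℝ) ≤ 10 ^ 8 * T * (loss p k s d l M R : ℝ) ^ 3 * 4 ^ n *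
      Real.exp (-(n : ℝ) / (10 ^ 8 * (loss p k s d l M R : ℝ) ^ 2)) := by
  have : Fact p.Prime := ⟨hp⟩
  have hD0 : 1 ≤ voterDegree p k s d M := by
    unfold voterDegree
    have h2 := hp.two_le
    refine Nat.one_le_iff_ne_zero.2 (Nat.mul_ne_zero (by omega) (pow_ne_zero _ ?_))
    exact Nat.mul_ne_zero (by omega) (by omega)
  refine numerics' n l (voterDegree p k s d M) M R hl hD0 hM hR T A.card (Nat.cast_nonneg _) ?_ ?_
  · rcases Nat.eq_zero_or_pos T with hT | hT
    · obtain ⟨A', hA', hc, hL'⟩ := lines_reduce A hA L hL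
      have h1 : A' = ∅ := by
        rw [Finset.eq_empty_iff_forall_notMem]
        rintro ⟨x, y⟩ hxy
        obtain ⟨F, hF, hLF⟩ := h x
        have h2 : y ∈ L x := (hL' x y).2 hxy
        rw [hLF] at h2
        obtain ⟨i, _⟩ := Set.mem_iUnion.1 h2
        subst hT
        exact i.elim0
      rw [← hc, h1, hT]
      simp
    · have h1 : (A.card : ℝ) ≤ 4 ^ n := by
        have h2 : A.card ≤ Fintype.card (V n × V n) := Finset.card_le_univ A
        have h3 : Fintype.card (V n × V n) = 4 ^ n := by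
          rw [Fintype.card_prod]
          simp only [Fintype.card_pi, ZMod.card, Finset.prod_const, Finset.card_univ,
            Fintype.card_fin]
          rw [← mul_pow]
          norm_num
        rw [h3] at h2
        exact_mod_cast h2
      have h2 : (1 : ℝ) ≤ T := by exact_mod_cast hT
      have h4 : (0 : ℝ) < 4 ^ n := by positivity
      nlinarith
  · intro m D
    exact lines_ineq (K := ZMod p) A hA L hL T (l * (wdw m M R * voterDegree p k s d M)) D _
      fun x => by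
        obtain ⟨F, hF, hLF⟩ := h x
        exact ⟨F, hLF, fun i => decided_approx hM hR (hF i) m⟩

end

end Pool.Agent.L0h67.CV
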