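import Pool.Agent.L0h67.CV.Sample

/-!
The inequality for corner-free sets whose lines agree with polynomials of low degree outside of very
small sets.
-/

set_option autoImplicit false

namespace Pool.Agent.L0h67.CV

open Finset Pool.Agent.W856.Corner

section

variable {p k s d n : ℕ} [Fact p.Prime]

/-- The length of the window. -/
noncomputable def wdw (m M R : ℕ) : ℕ := ⌊(2 * m * R / M : ℝ)⌋₊ + 1

open Classical in
/-- A vote agrees with a polynomial of low degree outside of a small set. -/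
theorem vote_approx {M R : ℕ} (hM : 1 ≤ M) (hR : 1 ≤ R) {S : Set (V n)}
    (h : Voted p k s d M R S) (m : ℕ) :
    ∃ g ∈ LK (ZMod p) n (wdw m M R * voterDegree p k s d M), ∃ B : Finset (V n),
      (B.card : ℝ) ≤ 2 ^ n * (2 * Real.exp (-(m / (16 * (M : ℝ) ^ 2)))) ∧
        ∀ y, y ∉ B → g y = if y ∈ S then 1 else 0 := by
  obtain ⟨b, hb, B, hB, hgood⟩ := vote_sample hM hR h m
  have hM0 : (0 : ℝ) < M := by exact_mod_cast hM
  set a : ℕ := ⌈((m : ℝ) - 2 * m * R / M) / 2⌉₊ with ha
  obtain ⟨g, hg, hgw⟩ := window (K := ZMod p) b hb a (wdw m M R)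
    (fun x => if m < 2 * x then 1 else 0)
  refine ⟨g, hg, B, hB, fun y hy => ?_⟩
  obtain ⟨h1, h2⟩ := hgood y hy
  have hq : 0 ≤ 2 * (m : ℝ) * R / M := by positivity
  have hlow : (m : ℝ) - 2 * m * R / M ≤ 2 * cnt b y := by
    by_cases hyS : y ∈ S
    · have := (h1 hyS).1
      linarith
    · exact (h2 hyS).2
  have hup : (2 * cnt b y : ℝ) ≤ m + 2 * m * R / M := by
    by_cases hyS : y ∈ S
    · exact (h1 hyS).2
    · have := (h2 hyS).1
      linarith
  have ha1 : a ≤ cnt b y := by
    rw [ha, Nat.ceil_le]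
    linarith
  have ha2 : cnt b y ≤ a + wdw m M R := by
    have e1 : ((m : ℝ) - 2 * m * R / M) / 2 ≤ a := Nat.le_ceil _
    have e2 : 2 * (m : ℝ) * R / M < wdw m M R := by
      unfold wdw
      push_cast
      exact Nat.lt_floor_add_one _
    have e3 : (cnt b y : ℝ) < a + wdw m M R := by linarith
    have e4 : ((cnt b y : ℕ) : ℝ) < ((a + wdw m M R : ℕ) : ℝ) := by push_cast; exact e3
    exact (Nat.cast_lt.1 e4).le
  rw [hgw y ha1 ha2]
  by_cases hyS : y ∈ S
  · rw [if_pos hyS, if_pos]
    have := (h1 hyS).1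
    exact_mod_cast this
  · rw [if_neg hyS, if_neg]
    have := (h2 hyS).1
    have h3 : 2 * cnt b y < m := by exact_mod_cast this
    omega

open Classical in
/-- A Boolean function of votes agrees with a polynomial of low degree outside of a small set. -/
theorem decided_approx {l M R : ℕ} (hM : 1 ≤ M) (hR : 1 ≤ R) {S : Set (V n)}
    (h : Decided p k s d l M R S) (m : ℕ) :
    ∃ g ∈ LK (ZMod p) n (l * (wdw m M R * voterDegree p k s d M)), ∃ B : Finset (V n),
      (B.card : ℝ) ≤ l * (2 ^ n * (2 * Real.exp (-(m / (16 * (M : ℝ) ^ 2))))) ∧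
        ∀ y, y ∉ B → g y = if y ∈ S then 1 else 0 := by
  obtain ⟨W, hW, hS⟩ := h
  choose g hg B hB hgB using fun j => vote_approx hM hR (hW j) m
  set D := wdw m M R * voterDegree p k s d M with hD
  let q : Finset (Fin l) → Prop := fun J => ∃ y ∈ S, ∀ j, j ∈ J ↔ y ∈ W j
  let G : (V n → ZMod p) := ∑ J : Finset (Fin l), (if q J then (1 : ZMod p) else 0) •
    ∏ j : Fin l, (if j ∈ J then g j else 1 - g j)
  refine ⟨G, ?_, univ.biUnion B, ?_, fun y hy => ?_⟩
  · refine Submodule.sum_mem _ fun J _ => Submodule.smul_mem _ _ ?_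
    have h1 := LK_prod (K := ZMod p) (n := n) (univ : Finset (Fin l)) (fun _ => D)
      (fun j => if j ∈ J then g j else 1 - g j) fun j _ => by
        split_ifs
        · exact hg j
        · exact Submodule.sub_mem _ (LK_one D) (hg j)
    rw [sum_const, card_univ, Fintype.card_fin, smul_eq_mul] at h1
    exact h1
  · calc ((univ.biUnion B).card : ℝ) ≤ ((∑ j, (B j).card : ℕ) : ℝ) :=
          Nat.cast_le.2 Finset.card_biUnion_le
      _ = ∑ j, ((B j).card : ℝ) := by push_cast; rfl
      _ ≤ ∑ _j : Fin l, (2 ^ n * (2 * Real.exp (-(m / (16 * (M : ℝ) ^ 2))))) :=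
          sum_le_sum fun j _ => hB j
      _ = _ := by rw [sum_const, card_univ, Fintype.card_fin, nsmul_eq_mul]
  · have hy' : ∀ j, y ∉ B j := fun j hj => hy (mem_biUnion.2 ⟨j, mem_univ _, hj⟩)
    set J0 : Finset (Fin l) := univ.filter fun j => y ∈ W j with hJ0
    have hmem : ∀ j, j ∈ J0 ↔ y ∈ W j := fun j => by simp [hJ0]
    have h1 : ∀ J : Finset (Fin l), (∏ j : Fin l, (if j ∈ J then g j else 1 - g j)) y =
        if J = J0 then 1 else 0 := by
      intro J
      rw [Finset.prod_apply]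
      split_ifs with hJ
      · refine prod_eq_one fun j _ => ?_
        rw [hJ]
        by_cases hj : y ∈ W j
        · rw [if_pos ((hmem j).2 hj), hgB j y (hy' j), if_pos hj]
        · rw [if_neg fun hc => hj ((hmem j).1 hc), Pi.sub_apply, hgB j y (hy' j), if_neg hj]
          simp
      · have h2 : ∃ j, ¬ (j ∈ J ↔ j ∈ J0) := by
          by_contra hcon
          push Not at hcon
          exact hJ (Finset.ext fun j => hcon j)
        obtain ⟨j, hj⟩ := h2
        refine prod_eq_zero (mem_univ j) ?_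
        rw [hmem] at hj
        by_cases hjJ : j ∈ J
        · have : y ∉ W j := fun hc => hj ⟨fun _ => hc, fun _ => hjJ⟩
          rw [if_pos hjJ, hgB j y (hy' j), if_neg this]
        · have : y ∈ W j := by
            by_contra hc
            exact hj ⟨fun h => absurd h hjJ, fun h => absurd h hc⟩
          rw [if_neg hjJ, Pi.sub_apply, hgB j y (hy' j), if_pos this]
          simp
    have h3 : G y = if q J0 then 1 else 0 := by
      show (∑ J : Finset (Fin l), (if q J then (1 : ZMod p) else 0) •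
        ∏ j : Fin l, (if j ∈ J then g j else 1 - g j)) y = _
      rw [Finset.sum_apply, Finset.sum_eq_single J0]
      · rw [Pi.smul_apply, h1, if_pos rfl, smul_eq_mul, mul_one]
      · intro J _ hJ
        rw [Pi.smul_apply, h1, if_neg hJ, smul_zero]
      · intro h; exact absurd (mem_univ _) h
    rw [h3]
    have h4 : q J0 ↔ y ∈ S := by
      constructor
      · rintro ⟨y', hy'S, hy''⟩
        exact (hS y' y fun j => by rw [← hy'' j, hmem j]).1 hy'S
      · intro hyS
        exact ⟨y, hyS, hmem⟩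
    by_cases hyS : y ∈ S
    · rw [if_pos (h4.2 hyS), if_pos hyS]
    · rw [if_neg fun hc => hyS (h4.1 hc), if_neg hyS]

end

section

variable {n : ℕ} {K : Type} [Field K] [Fintype K] [DecidableEq K]

open Classical in
lemma piece' (S : Set (V n)) (Deg D : ℕ) (g : V n → K) (hg : g ∈ LK K n Deg)
    (E : Finset (V n)) (hE : ∀ y, y ∉ E → g y = if y ∈ S then 1 else 0) :
    ∃ G ∈ LK K n (Deg + D), (∀ y, G y ≠ 0 → y ∈ S) ∧ ∃ z : ℕ,
        z * (∑ i ∈ range (D + 1), n.choose i) ≤ 2 ^ n * E.card ∧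
        S.ncard ≤ z + 2 * (univ.filter fun y => G y ≠ 0).card := by
  set W : Finset (V n) := univ.filter fun y => y ∈ S with hW
  obtain ⟨h', hh', hvan, z, hz1, hz2⟩ := exists_vanish (K := K) D E W
  have hkey : ∀ y, (g * h') y ≠ 0 ↔ y ∈ W ∧ h' y ≠ 0 := by
    intro y
    rw [Pi.mul_apply, mul_ne_zero_iff, hW, Finset.mem_filter]
    constructor
    · rintro ⟨h1, h2⟩
      refine ⟨⟨Finset.mem_univ _, ?_⟩, h2⟩
      have h3 : y ∉ E := fun hy => h2 (hvan y hy)
      by_contra hc
      rw [hE y h3, if_neg hc] at h1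
      exact h1 rfl
    · rintro ⟨h1, h2⟩
      refine ⟨?_, h2⟩
      have h3 : y ∉ E := fun hy => h2 (hvan y hy)
      rw [hE y h3, if_pos h1.2]
      exact one_ne_zero
  refine ⟨g * h', LK_mul hg hh', ?_, z, hz1, ?_⟩
  · intro y hy
    have := ((hkey y).1 hy).1
    rw [hW, Finset.mem_filter] at this
    exact this.2
  · have e1 : S.ncard = W.card := by
      rw [← Set.ncard_coe_finset]
      congr 1
      ext y
      simp [hW]
    have e2 : (univ.filter fun y => (g * h') y ≠ 0) = W.filter fun y => h' y ≠ 0 := by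
      ext y
      rw [Finset.mem_filter, Finset.mem_filter, hkey y]
      simp
    rw [e1, e2]
    exact hz2

open Classical in
/-- The inequality behind the bound. -/
theorem lines_ineq (A : Finset (V n × V n)) (hA : CornerFree A) (L : V n → Set (V n))
    (hL : IsLines A L) (T Deg D : ℕ) (β : ℝ)
    (h : ∀ x, ∃ F : Fin T → Set (V n), L x = ⋃ i, F i ∧ ∀ i, ∃ g ∈ LK K n Deg,
      ∃ B : Finset (V n), (B.card : ℝ) ≤ β ∧ ∀ y, y ∉ B → g y = if y ∈ F i then 1 else 0) :
    (A.card : ℝ) ≤ T * (2 * 2 ^ n * (∑ i ∈ range (Deg + D + 1), (n.choose i : ℝ)) +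
      2 ^ n * (2 ^ n * β / ∑ i ∈ range (D + 1), (n.choose i : ℝ))) := by
  obtain ⟨A', hA', hc, hL'⟩ := lines_reduce A hA L hL
  choose F hLF g0 hg0 B hB hgB using h
  have hpc := fun x i => piece' (F x i) Deg D (g0 x i) (hg0 x i) (B x i) (hgB x i)
  choose g hg1 hg2 z hz1 hz2 using hpc
  set SD : ℕ := ∑ i ∈ range (D + 1), n.choose i with hSD
  have hSDpos : 0 < SD := by
    rw [hSD]
    refine Finset.sum_pos' (fun _ _ => Nat.zero_le _) ⟨0, by simp, by simp⟩
  have hSDr : (0 : ℝ) < SD := by exact_mod_cast hSDpos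
  -- the columns
  have hrank : ∀ i : Fin T, ∑ x, (univ.filter fun y => g x i y ≠ 0).card ≤
      2 ^ n * ∑ j ∈ range (Deg + D + 1), n.choose j := by
    intro i
    have h1 := core_rank A' hA' (LK K n (Deg + D)) (fun x => g x i)
      (fun x => hg1 x i) (fun x y hxy => by
        rw [← hL', hLF]
        exact Set.mem_iUnion.2 ⟨i, hg2 x i y hxy⟩)
    have h2 : Fintype.card (V n) = 2 ^ n := by simp
    rw [h2] at h1
    exact h1.trans (Nat.mul_le_mul_left _ (finrank_LK n _))
  have hzr : ∀ x i, (z x i : ℝ) ≤ 2 ^ n * β / SD := by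
    intro x i
    rw [le_div_iff₀ hSDr]
    have h1 : ((z x i * SD : ℕ) : ℝ) ≤ ((2 ^ n * (B x i).card : ℕ) : ℝ) := by
      exact_mod_cast hz1 x i
    push_cast at h1
    have h2 : (2 : ℝ) ^ n * (B x i).card ≤ 2 ^ n * β :=
      mul_le_mul_of_nonneg_left (hB x i) (by positivity)
    linarith
  have hrow : ∀ x, ((univ.filter fun y => (x, y) ∈ A').card : ℝ) ≤
      ∑ i : Fin T, (2 ^ n * β / SD + 2 * ((univ.filter fun y => g x i y ≠ 0).card : ℝ)) := by
    intro x
    have e1 : (univ.filter fun y => (x, y) ∈ A').card = (⋃ i, F x i).ncard := by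
      rw [← Set.ncard_coe_finset, ← hLF]
      congr 1
      ext y
      simp [hL']
    have e2 : (⋃ i, F x i).ncard ≤ ∑ i : Fin T, (F x i).ncard := by
      have := Finset.set_ncard_biUnion_le (univ : Finset (Fin T)) (fun i => F x i)
      simpa using this
    rw [e1]
    calc (((⋃ i, F x i).ncard : ℕ) : ℝ) ≤ ((∑ i : Fin T, (F x i).ncard : ℕ) : ℝ) :=
          Nat.cast_le.2 e2
      _ = ∑ i : Fin T, ((F x i).ncard : ℝ) := by push_cast; rfl
      _ ≤ _ := by
          refine Finset.sum_le_sum fun i _ => ?_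
          have h1 : ((F x i).ncard : ℝ) ≤
              z x i + 2 * ((univ.filter fun y => g x i y ≠ 0).card : ℝ) := by
            exact_mod_cast hz2 x i
          have := hzr x i
          linarith
  have hcardA : (A'.card : ℝ) = ∑ x, ((univ.filter fun y => (x, y) ∈ A').card : ℝ) := by
    have h1 : A'.card = ∑ x : V n, (univ.filter fun y => (x, y) ∈ A').card := by
      rw [Finset.card_eq_sum_card_fiberwise (f := Prod.fst) (t := univ)
        (fun _ _ => Finset.mem_coe.2 (Finset.mem_univ _))]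
      refine Finset.sum_congr rfl fun x _ => ?_
      refine Finset.card_bij' (fun q _ => q.2) (fun y _ => (x, y)) ?_ ?_ ?_ ?_
      · rintro ⟨a, b⟩ hq
        rw [Finset.mem_filter] at hq ⊢
        obtain ⟨h1, h2⟩ := hq
        simp only at h2
        subst h2
        exact ⟨Finset.mem_univ _, h1⟩
      · intro y hy
        rw [Finset.mem_filter] at hy ⊢
        exact ⟨hy.2, rfl⟩
      · rintro ⟨a, b⟩ hq
        rw [Finset.mem_filter] at hq
        have h2 := hq.2
        simp only at h2
        rw [h2]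
      · intro y _; rfl
    rw [h1]; push_cast; rfl
  rw [← hc, hcardA]
  calc _ ≤ ∑ x : V n, ∑ i : Fin T,
        (2 ^ n * β / SD + 2 * ((univ.filter fun y => g x i y ≠ 0).card : ℝ)) :=
        Finset.sum_le_sum fun x _ => hrow x
    _ = ∑ i : Fin T, ∑ x : V n,
        (2 ^ n * β / SD + 2 * ((univ.filter fun y => g x i y ≠ 0).card : ℝ)) :=
        Finset.sum_comm
    _ ≤ ∑ _i : Fin T, (2 ^ n * (2 ^ n * β / SD) +
        2 * (2 ^ n * ∑ j ∈ range (Deg + D + 1), (n.choose j : ℝ))) := by
        refine Finset.sum_le_sum fun i _ => ?_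
        rw [Finset.sum_add_distrib, Finset.sum_const, Finset.card_univ, ← Finset.mul_sum,
          nsmul_eq_mul]
        have h1 : ((∑ x, (univ.filter fun y => g x i y ≠ 0).card : ℕ) : ℝ) ≤
            ((2 ^ n * ∑ j ∈ range (Deg + D + 1), n.choose j : ℕ) : ℝ) :=
          Nat.cast_le.2 (hrank i)
        push_cast at h1
        have h2 : ((Fintype.card (V n) : ℕ) : ℝ) = 2 ^ n := by simp
        rw [h2]
        linarith
    _ = _ := by
        rw [Finset.sum_const, Finset.card_univ, Fintype.card_fin, nsmul_eq_mul, hSD]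
        push_cast
        ring

end

end Pool.Agent.L0h67.CV
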