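import Pool.Agent.W856.Corner10
import Pool.Agent.L0h67.CV.Defs

/-!
Functions of the number of true voters, on a window of consecutive numbers, are polynomials of low
degree.
-/

set_option autoImplicit false

namespace Pool.Agent.L0h67.CV

open Finset Pool.Agent.W856.Corner

section

variable {K : Type} [Field K]

/-- Integer-valued polynomials: a combination of the `C(x, i)` is a combination of the
`C(x + 1, i)`. -/
lemma back_shift (w : ℕ) : ∀ c : ℕ → K, ∃ c' : ℕ → K, ∀ x : ℕ,
    ∑ i ∈ range (w + 1), c i * (x.choose i : K) =
      ∑ i ∈ range (w + 1), c' i * ((x + 1).choose i : K) := by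
  induction w with
  | zero =>
    intro c
    exact ⟨c, fun x => by simp⟩
  | succ w ih =>
    intro c
    obtain ⟨c', hc'⟩ := ih (fun i => if i = w then c w - c (w + 1) else c i)
    refine ⟨fun i => if i = w + 1 then c (w + 1) else c' i, fun x => ?_⟩
    rw [sum_range_succ _ (w + 1), sum_range_succ _ (w + 1)]
    beta_reduce
    have h1 : ∑ i ∈ range (w + 1), (if i = w + 1 then c (w + 1) else c' i) * ((x + 1).choose i : K) =
        ∑ i ∈ range (w + 1), c' i * ((x + 1).choose i : K) := by
      refine sum_congr rfl fun i hi => ?_
      rw [if_neg]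
      have := mem_range.1 hi
      omega
    have h2 : ∑ i ∈ range (w + 1), (if i = w then c w - c (w + 1) else c i) * (x.choose i : K) =
        ∑ i ∈ range (w + 1), c i * (x.choose i : K) - c (w + 1) * (x.choose w : K) := by
      rw [sum_range_succ, sum_range_succ _ w, if_pos rfl]
      have h3 : ∑ i ∈ range w, (if i = w then c w - c (w + 1) else c i) * (x.choose i : K) =
          ∑ i ∈ range w, c i * (x.choose i : K) := by
        refine sum_congr rfl fun i hi => ?_
        rw [if_neg]
        have := mem_range.1 hi
        omega
      rw [h3]; ring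
    have h4 : ((x + 1).choose (w + 1) : K) = x.choose w + x.choose (w + 1) := by
      rw [Nat.choose_succ_succ]; push_cast; rfl
    rw [h1, ← hc' x, h2, if_pos rfl, h4]
    ring

/-- Interpolation at consecutive integers, without denominators. -/
lemma interp (w : ℕ) : ∀ (a : ℕ) (F : ℕ → K), ∃ c : ℕ → K, ∀ x, a ≤ x → x ≤ a + w →
    ∑ i ∈ range (w + 1), c i * (x.choose i : K) = F x := by
  intro a
  induction a with
  | zero =>
    intro F
    have hz : ∀ w : ℕ, ∃ c : ℕ → K, ∀ x, x ≤ w →
        ∑ i ∈ range (w + 1), c i * (x.choose i : K) = F x := by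
      intro w
      induction w with
      | zero =>
        refine ⟨fun _ => F 0, fun x hx => ?_⟩
        have : x = 0 := by omega
        subst this
        simp
      | succ w ih =>
        obtain ⟨c, hc⟩ := ih
        refine ⟨fun i => if i = w + 1 then F (w + 1) -
          ∑ i ∈ range (w + 1), c i * ((w + 1).choose i : K) else c i, fun x hx => ?_⟩
        rw [sum_range_succ]
        beta_reduce
        rw [if_pos rfl]
        have h1 : ∑ i ∈ range (w + 1), (if i = w + 1 then F (w + 1) -
            ∑ i ∈ range (w + 1), c i * ((w + 1).choose i : K) else c i) * (x.choose i : K) =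
            ∑ i ∈ range (w + 1), c i * (x.choose i : K) := by
          refine sum_congr rfl fun i hi => ?_
          rw [if_neg]
          have := mem_range.1 hi
          omega
        rw [h1]
        rcases Nat.lt_or_ge x (w + 1) with h | h
        · rw [Nat.choose_eq_zero_of_lt h, Nat.cast_zero, mul_zero, add_zero]
          exact hc x (by omega)
        · have : x = w + 1 := by omega
          subst this
          rw [Nat.choose_self, Nat.cast_one]
          ring
    obtain ⟨c, hc⟩ := hz w
    exact ⟨c, fun x _ hx => hc x (by omega)⟩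
  | succ a ih =>
    intro F
    obtain ⟨c, hc⟩ := ih (fun x => F (x + 1))
    obtain ⟨c', hc'⟩ := back_shift w c
    refine ⟨c', fun x hx hx' => ?_⟩
    obtain ⟨u, rfl⟩ : ∃ u, x = u + 1 := ⟨x - 1, by omega⟩
    rw [← hc' u]
    exact hc u (by omega) (by omega)

variable {n : ℕ}

/-- The number of the voters which are true at `y`. -/
def cnt {m : ℕ} (b : Fin m → V n → Bool) (y : V n) : ℕ := (univ.filter fun j => b j y = true).card

lemma choose_cnt {m D : ℕ} (b : Fin m → V n → Bool) (hb : ∀ j, LB K D (b j)) (i : ℕ) :
    (fun y => ((cnt b y).choose i : K)) ∈ LK K n (i * D) := by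
  classical
  have h1 : (fun y => ((cnt b y).choose i : K)) =
      ∑ J ∈ powersetCard i (univ : Finset (Fin m)), ∏ j ∈ J, fun y => bi K (b j y) := by
    funext y
    rw [Finset.sum_apply]
    have h2 : ∀ J ∈ powersetCard i (univ : Finset (Fin m)), (∏ j ∈ J, fun y => bi K (b j y)) y =
        if J ⊆ univ.filter (fun j => b j y = true) then (1 : K) else 0 := by
      intro J _
      rw [Finset.prod_apply]
      split_ifs with h
      · refine prod_eq_one fun j hj => ?_
        have := (mem_filter.1 (h hj)).2
        simp [bi, this]
      · have h3 : ∃ j ∈ J, b j y ≠ true := by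
          by_contra hcon
          push Not at hcon
          exact h fun j hj => mem_filter.2 ⟨mem_univ _, hcon j hj⟩
        obtain ⟨j, hj, hjb⟩ := h3
        refine prod_eq_zero hj ?_
        simp [bi, hjb]
    rw [sum_congr rfl h2, sum_boole]
    congr 1
    unfold cnt
    rw [← card_powersetCard]
    congr 1
    ext J
    simp only [mem_powersetCard, mem_filter, subset_univ, true_and]
    tauto
  rw [h1]
  refine Submodule.sum_mem _ fun J hJ => ?_
  have h2 := LK_prod (K := K) (n := n) J (fun _ => D) (fun j y => bi K (b j y)) fun j _ => hb j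
  have h3 : ∑ j ∈ J, D = i * D := by
    rw [sum_const, (mem_powersetCard.1 hJ).2, smul_eq_mul]
  rw [h3] at h2
  exact h2

/-- Any function of the number of true voters agrees on a window of length `w` with a polynomial of
degree at most `w` in the voters. -/
lemma window {m D : ℕ} (b : Fin m → V n → Bool) (hb : ∀ j, LB K D (b j)) (a w : ℕ) (F : ℕ → K) :
    ∃ g ∈ LK K n (w * D), ∀ y, a ≤ cnt b y → cnt b y ≤ a + w → g y = F (cnt b y) := by
  obtain ⟨c, hc⟩ := interp w a F
  refine ⟨∑ i ∈ range (w + 1), c i • fun y => ((cnt b y).choose i : K), ?_, fun y h1 h2 => ?_⟩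
  · refine Submodule.sum_mem _ fun i hi => Submodule.smul_mem _ _ ?_
    refine LK_mono (Nat.mul_le_mul_right _ ?_) (choose_cnt b hb i)
    have := mem_range.1 hi
    omega
  · rw [Finset.sum_apply, ← hc _ h1 h2]
    rfl

end

end Pool.Agent.L0h67.CV
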