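import Pool.Agent.L0h67.CV.Final

/-!
The main theorems on corner-free sets with lines decided by votes.
-/

set_option autoImplicit false

namespace Pool.Agent.L0h67.CV

open Finset Pool.Agent.W856.Corner

section

variable {p k s d l M R n : ℕ}

lemma vote_restrict {N : ℕ} (c : Fin N → ℝ) (F : Fin N → Set (V (n + n))) (x y : V n) :
    vote c (fun j => {y : V n | Fin.append x y ∈ F j}) y = vote c F (Fin.append x y) := by
  classical
  unfold vote
  refine sum_congr rfl fun j _ => ?_
  rfl

lemma voted_restrict (hp : p.Prime) (x : V n) {S : Set (V (n + n))}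
    (h : Voted p k s d M R S) : Voted p k s d M R {y : V n | Fin.append x y ∈ S} := by
  obtain ⟨N, c, F, hF, hc, h1, h2, h3⟩ := h
  refine ⟨N, c, fun j => {y : V n | Fin.append x y ∈ F j}, fun j => computed_restrict hp x (hF j),
    hc, fun y hy => ?_, fun y hy => ?_, fun y => ?_⟩
  · rw [vote_restrict]; exact h1 _ hy
  · rw [vote_restrict]; exact h2 _ hy
  · rw [vote_restrict]; exact h3 _

lemma decided_restrict (hp : p.Prime) (x : V n) {S : Set (V (n + n))}
    (h : Decided p k s d l M R S) : Decided p k s d l M R {y : V n | Fin.append x y ∈ S} := by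
  obtain ⟨W, hW, hS⟩ := h
  exact ⟨fun j => {y : V n | Fin.append x y ∈ W j}, fun j => voted_restrict hp x (hW j),
    fun y y' hyy => hS _ _ hyy⟩

/-- The bound for Boolean functions of votes. -/
theorem main_decided (hp : p.Prime) (hk : 1 ≤ k) (hl : 1 ≤ l) (hM : 1 ≤ M) (hR : 1 ≤ R)
    (A : Finset (V n × V n)) (hA : CornerFree A) (T : ℕ)
    (h : LinesOrSelf (fun _ S => Decided p k s d l M R S) T A) :
    (A.card : ℝ) ≤ 10 ^ 8 * T * (loss p k s d l M R : ℝ) ^ 3 * 4 ^ n *
      Real.exp (-(n : ℝ) / (10 ^ 8 * (loss p k s d l M R : ℝ) ^ 2)) := by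
  rcases h with ⟨L, hL, h⟩ | ⟨F, hF, hAF⟩
  · exact decided_bound hp hk hl hM hR A hA L hL T h
  · refine decided_bound hp hk hl hM hR A hA (fun x => {y | (x, y) ∈ A}) (Or.inl fun _ => rfl) T
      fun x => ⟨fun i => {y | Fin.append x y ∈ F i}, fun i => decided_restrict hp x (hF i), ?_⟩
    ext y
    rw [Set.mem_ofPred_eq, hAF, Set.mem_iUnion]
    rfl

lemma computed_of_degree (f : V n → Bool) (hf : HasDegree p k f) :
    Computed p k 0 0 {y | f y = true} := by
  refine ⟨{ N := 1
            val := fun _ => f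
            depth := fun _ => 0
            andOr := ∅
            rule := fun i => Or.inl ⟨by simp, hf⟩ }, by simp, fun _ => le_rfl, 0, fun y => ?_⟩
  rfl

lemma hasDegree_true : HasDegree p k (fun _ : V n => true) :=
  ⟨1, by simp, fun y => by simp⟩

/-- Sets with a small approximate norm are decided by a vote. -/
lemma decided_of_approxNorm (hM : 1 ≤ M) {S : Set (V n)} (h : ApproxNorm p k M S) :
    Decided p k 0 0 1 (9 * M) 5 S := by
  classical
  obtain ⟨N, c, f, hf, hc, ha⟩ := h
  refine ⟨fun _ => S, fun _ => ?_, fun y y' hyy => hyy 0⟩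
  have hMr : (1 : ℝ) ≤ M := by exact_mod_cast hM
  set c' : Fin (N + 1) → ℝ := Fin.snoc (fun j => -(6 * c j)) (-3) with hc'
  set F' : Fin (N + 1) → Set (V n) := Fin.snoc (fun j => {y | f j y = true}) Set.univ with hF'
  have hv : ∀ y, vote c' F' y = 6 * (∑ j, c j * (if f j y = true then -1 else 1)) - 3 := by
    intro y
    unfold vote
    rw [Fin.sum_univ_castSucc]
    simp only [hc', hF', Fin.snoc_castSucc, Fin.snoc_last]
    rw [if_pos (Set.mem_univ y), Finset.mul_sum]
    have h1 : ∀ j, -(6 * c j) * (if y ∈ {y | f j y = true} then (1 : ℝ) else -1) =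
        6 * (c j * (if f j y = true then -1 else 1)) := by
      intro j
      by_cases h : f j y = true
      · rw [if_pos (show y ∈ {y | f j y = true} from h), if_pos h]; ring
      · rw [if_neg (show y ∉ {y | f j y = true} from h), if_neg h]; ring
    simp_rw [h1]
    ring
  refine ⟨N + 1, c', F', fun j => ?_, ?_, fun y hy => ?_, fun y hy => ?_, fun y => ?_⟩
  · refine Fin.lastCases ?_ (fun j => ?_) j
    · simp only [hF', Fin.snoc_last]
      have h1 := computed_of_degree (n := n) (p := p) (k := k) (fun _ => true)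
        hasDegree_true
      have h2 : {y : V n | (fun _ : V n => true) y = true} = Set.univ := by
        ext y; simp
      rwa [h2] at h1
    · simp only [hF', Fin.snoc_castSucc]
      exact computed_of_degree (f j) (hf j)
  · rw [Fin.sum_univ_castSucc]
    simp only [hc', Fin.snoc_castSucc, Fin.snoc_last]
    have h1 : ∀ j, |-(6 * c j)| = 6 * |c j| := by
      intro j
      rw [abs_neg, abs_mul]
      norm_num
    simp_rw [h1]
    rw [← Finset.mul_sum]
    push_cast
    norm_num
    linarith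
  · have h1 := abs_le.1 (ha y)
    rw [Set.indicator_of_mem hy] at h1
    rw [hv]
    linarith
  · have h1 := abs_le.1 (ha y)
    rw [Set.indicator_of_notMem hy] at h1
    rw [hv]
    linarith
  · have h1 := abs_le.1 (ha y)
    rw [hv, abs_le]
    push_cast
    by_cases hy : y ∈ S
    · rw [Set.indicator_of_mem hy] at h1
      constructor <;> linarith
    · rw [Set.indicator_of_notMem hy] at h1
      constructor <;> linarith

/-- The bound for small approximate norms. -/
theorem main_norm (hp : p.Prime) (hk : 1 ≤ k) (hM : 1 ≤ M)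
    (A : Finset (V n × V n)) (hA : CornerFree A) (T : ℕ)
    (h : LinesOrSelf (fun _ S => ApproxNorm p k M S) T A) :
    (A.card : ℝ) ≤ 10 ^ 13 * T * ((k : ℝ) * M) ^ 3 * 4 ^ n *
      Real.exp (-(n : ℝ) / (10 ^ 12 * ((k : ℝ) * M) ^ 2)) := by
  have h1 : LinesOrSelf (fun _ S => Decided p k 0 0 1 (9 * M) 5 S) T A := by
    rcases h with ⟨L, hL, h⟩ | ⟨F, hF, hAF⟩
    · refine Or.inl ⟨L, hL, fun x => ?_⟩
      obtain ⟨F, hF, hLF⟩ := h x
      exact ⟨F, fun i => decided_of_approxNorm hM (hF i), hLF⟩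
    · exact Or.inr ⟨F, fun i => decided_of_approxNorm hM (hF i), hAF⟩
  have h2 := main_decided hp hk le_rfl (by omega) (by omega) A hA T h1
  have h3 : ((loss p k 0 0 1 (9 * M) 5 : ℕ) : ℝ) = 45 * ((k : ℝ) * M) := by
    unfold loss voterDegree
    push_cast
    ring
  rw [h3] at h2
  have hkr : (1 : ℝ) ≤ k := by exact_mod_cast hk
  have hMr : (1 : ℝ) ≤ M := by exact_mod_cast hM
  have hkM : (1 : ℝ) ≤ (k : ℝ) * M := one_le_mul_of_one_le_of_one_le hkr hMr
  have hkM2 : (1 : ℝ) ≤ ((k : ℝ) * M) ^ 2 := one_le_pow₀ hkM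
  have hn0 : (0 : ℝ) ≤ n := Nat.cast_nonneg n
  refine h2.trans ?_
  have h4 : Real.exp (-(n : ℝ) / (10 ^ 8 * (45 * ((k : ℝ) * M)) ^ 2)) ≤
      Real.exp (-(n : ℝ) / (10 ^ 12 * ((k : ℝ) * M) ^ 2)) := by
    rw [Real.exp_le_exp, neg_div, neg_div, neg_le_neg_iff]
    refine div_le_div_of_nonneg_left hn0 (by positivity) ?_
    rw [mul_pow]
    linarith
  refine mul_le_mul ?_ h4 (Real.exp_pos _).le (by positivity)
  refine mul_le_mul_of_nonneg_right ?_ (by positivity)
  have h5 : (0 : ℝ) ≤ T * ((k : ℝ) * M) ^ 3 := by positivity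
  rw [mul_pow]
  linarith

end

end Pool.Agent.L0h67.CV
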