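import Mathlib

/-!
A Chernoff bound for independent samples from a finite weighted space.
-/

set_option autoImplicit false

namespace Pool.Agent.L0h67.CV

open Finset

section

variable {Ω : Type} [Fintype Ω]

lemma exp_le_quad {u : ℝ} (hu : |u| ≤ 1) : Real.exp u ≤ 1 + u + u ^ 2 := by
  have h := Real.abs_exp_sub_one_sub_id_le hu
  have := (abs_le.1 h).2
  linarith

/-- One sample. -/
lemma moment (w X : Ω → ℝ) (hw : ∀ a, 0 ≤ w a) (hw1 : ∑ a, w a = 1) (hX : ∀ a, |X a| ≤ 1)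
    (t : ℝ) (ht : |t| ≤ 1) :
    ∑ a, w a * Real.exp (t * X a) ≤ Real.exp (t * (∑ a, w a * X a) + t ^ 2) := by
  have h1 : ∀ a, w a * Real.exp (t * X a) ≤ w a * (1 + t * X a + t ^ 2) := by
    intro a
    refine mul_le_mul_of_nonneg_left ?_ (hw a)
    have h2 : |t * X a| ≤ 1 := by
      rw [abs_mul]
      exact mul_le_one₀ ht (abs_nonneg _) (hX a)
    refine (exp_le_quad h2).trans ?_
    have h3 : (t * X a) ^ 2 ≤ t ^ 2 := by
      rw [mul_pow]
      have : X a ^ 2 ≤ 1 := by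
        rw [← sq_abs]
        exact pow_le_one₀ (abs_nonneg _) (hX a)
      have h4 : 0 ≤ t ^ 2 := sq_nonneg t
      nlinarith
    linarith
  calc ∑ a, w a * Real.exp (t * X a) ≤ ∑ a, w a * (1 + t * X a + t ^ 2) :=
        sum_le_sum fun a _ => h1 a
    _ = (∑ a, w a) * (1 + t ^ 2) + t * ∑ a, w a * X a := by
        rw [Finset.sum_mul, Finset.mul_sum, ← Finset.sum_add_distrib]
        refine sum_congr rfl fun a _ => ?_
        ring
    _ = t * (∑ a, w a * X a) + t ^ 2 + 1 := by rw [hw1]; ring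
    _ ≤ _ := Real.add_one_le_exp _

/-- Independent samples. -/
lemma moment_pow (w X : Ω → ℝ) (hw : ∀ a, 0 ≤ w a) (hw1 : ∑ a, w a = 1) (hX : ∀ a, |X a| ≤ 1)
    (t : ℝ) (ht : |t| ≤ 1) (m : ℕ) :
    ∑ v : Fin m → Ω, (∏ i, w (v i)) * Real.exp (t * ∑ i, X (v i)) ≤
      Real.exp (m * (t * (∑ a, w a * X a) + t ^ 2)) := by
  classical
  have h1 : ∀ v : Fin m → Ω, (∏ i, w (v i)) * Real.exp (t * ∑ i, X (v i)) =
      ∏ i, (w (v i) * Real.exp (t * X (v i))) := by
    intro v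
    rw [Finset.prod_mul_distrib, Finset.mul_sum, Real.exp_sum]
  simp_rw [h1]
  have h2 : ∑ v : Fin m → Ω, ∏ i, (w (v i) * Real.exp (t * X (v i))) =
      (∑ a, w a * Real.exp (t * X a)) ^ m := by
    have := (Finset.prod_univ_sum (fun _ : Fin m => (univ : Finset Ω))
      (fun _ a => w a * Real.exp (t * X a))).symm
    rw [Fintype.piFinset_univ] at this
    rw [this, Finset.prod_const, Finset.card_univ, Fintype.card_fin]
  rw [h2, Real.exp_nat_mul]
  refine pow_le_pow_left₀ (sum_nonneg fun a _ => mul_nonneg (hw a) (Real.exp_pos _).le) ?_ m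
  exact moment w X hw hw1 hX t ht

open Classical in
/-- The Chernoff bound, upper tail. -/
lemma tail_up (w X : Ω → ℝ) (hw : ∀ a, 0 ≤ w a) (hw1 : ∑ a, w a = 1) (hX : ∀ a, |X a| ≤ 1)
    (m : ℕ) (δ : ℝ) (hδ0 : 0 ≤ δ) (hδ : δ ≤ 1) :
    ∑ v : Fin m → Ω, (if m * δ ≤ ∑ i, X (v i) - m * ∑ a, w a * X a then ∏ i, w (v i) else 0) ≤
      Real.exp (-(m * δ ^ 2 / 4)) := by
  set μ := ∑ a, w a * X a with hμ
  have h1 : ∀ v : Fin m → Ω, (if m * δ ≤ ∑ i, X (v i) - m * μ then ∏ i, w (v i) else 0) ≤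
      ((∏ i, w (v i)) * Real.exp (δ / 2 * ∑ i, X (v i))) *
        Real.exp (-(δ / 2 * (m * δ + m * μ))) := by
    intro v
    have hp : 0 ≤ ∏ i, w (v i) := prod_nonneg fun i _ => hw _
    split_ifs with h
    · rw [mul_assoc, ← Real.exp_add]
      have h2 : 0 ≤ δ / 2 * ∑ i, X (v i) + -(δ / 2 * (m * δ + m * μ)) := by
        have : 0 ≤ δ / 2 * (∑ i, X (v i) - m * μ - m * δ) :=
          mul_nonneg (by linarith) (by linarith)
        linarith
      have h3 : 1 ≤ Real.exp (δ / 2 * ∑ i, X (v i) + -(δ / 2 * (m * δ + m * μ))) :=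
        Real.one_le_exp h2
      nlinarith
    · exact mul_nonneg (mul_nonneg hp (Real.exp_pos _).le) (Real.exp_pos _).le
  have h2 := moment_pow w X hw hw1 hX (δ / 2) (by rw [abs_of_nonneg (by linarith)]; linarith) m
  rw [← hμ] at h2
  calc _ ≤ ∑ v : Fin m → Ω, ((∏ i, w (v i)) * Real.exp (δ / 2 * ∑ i, X (v i))) *
        Real.exp (-(δ / 2 * (m * δ + m * μ))) := sum_le_sum fun v _ => h1 v
    _ = (∑ v : Fin m → Ω, (∏ i, w (v i)) * Real.exp (δ / 2 * ∑ i, X (v i))) *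
        Real.exp (-(δ / 2 * (m * δ + m * μ))) := by rw [Finset.sum_mul]
    _ ≤ Real.exp (m * (δ / 2 * μ + (δ / 2) ^ 2)) * Real.exp (-(δ / 2 * (m * δ + m * μ))) :=
        mul_le_mul_of_nonneg_right h2 (Real.exp_pos _).le
    _ = _ := by
        rw [← Real.exp_add]
        congr 1
        ring

open Classical in
/-- The Chernoff bound. -/
lemma tail (w X : Ω → ℝ) (hw : ∀ a, 0 ≤ w a) (hw1 : ∑ a, w a = 1) (hX : ∀ a, |X a| ≤ 1)
    (m : ℕ) (δ : ℝ) (hδ0 : 0 ≤ δ) (hδ : δ ≤ 1) :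
    ∑ v : Fin m → Ω, (if m * δ ≤ |∑ i, X (v i) - m * ∑ a, w a * X a| then ∏ i, w (v i) else 0) ≤
      2 * Real.exp (-(m * δ ^ 2 / 4)) := by
  have h1 := tail_up w X hw hw1 hX m δ hδ0 hδ
  have h2 := tail_up w (fun a => -X a) hw hw1 (fun a => by rw [abs_neg]; exact hX a) m δ hδ0 hδ
  have h3 : ∑ a, w a * -X a = -∑ a, w a * X a := by
    rw [← Finset.sum_neg_distrib]
    exact sum_congr rfl fun a _ => by ring
  rw [h3] at h2
  rw [two_mul]
  refine le_trans ?_ (add_le_add h1 h2)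
  rw [← Finset.sum_add_distrib]
  refine sum_le_sum fun v _ => ?_
  have hp : 0 ≤ ∏ i, w (v i) := prod_nonneg fun i _ => hw _
  rw [Finset.sum_neg_distrib]
  by_cases h : m * δ ≤ |∑ i, X (v i) - m * ∑ a, w a * X a|
  · rw [if_pos h]
    rcases le_abs.1 h with h' | h'
    · rw [if_pos h']
      split_ifs <;> linarith
    · rw [if_pos (show (m : ℝ) * δ ≤ -∑ i, X (v i) - m * -∑ a, w a * X a by linarith)]
      split_ifs <;> linarith
  · rw [if_neg h]
    split_ifs <;> linarith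

open Classical in
/-- Some choice of the samples is good for all but few of the elements of a finite set `Y`. -/
theorem exists_sample {Y : Type} [Fintype Y] (w : Ω → ℝ) (X : Ω → Y → ℝ) (hw : ∀ a, 0 ≤ w a)
    (hw1 : ∑ a, w a = 1) (hX : ∀ a y, |X a y| ≤ 1) (m : ℕ) (δ : ℝ) (hδ0 : 0 ≤ δ) (hδ : δ ≤ 1) :
    ∃ v : Fin m → Ω, ((univ.filter fun y : Y =>
      m * δ ≤ |∑ i, X (v i) y - m * ∑ a, w a * X a y|).card : ℝ) ≤
        Fintype.card Y * (2 * Real.exp (-(m * δ ^ 2 / 4))) := by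
  by_contra hcon
  push Not at hcon
  set β := (Fintype.card Y : ℝ) * (2 * Real.exp (-(m * δ ^ 2 / 4))) with hβ
  have h1 : ∑ v : Fin m → Ω, ∏ i, w (v i) = 1 := by
    have := (Finset.prod_univ_sum (fun _ : Fin m => (univ : Finset Ω)) (fun _ a => w a)).symm
    rw [Fintype.piFinset_univ] at this
    rw [this, Finset.prod_const, hw1, one_pow]
  have h2 : ∑ v : Fin m → Ω, (∏ i, w (v i)) * ((univ.filter fun y : Y =>
      m * δ ≤ |∑ i, X (v i) y - m * ∑ a, w a * X a y|).card : ℝ) ≤ β := by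
    have e1 : ∀ v : Fin m → Ω, (∏ i, w (v i)) * ((univ.filter fun y : Y =>
        m * δ ≤ |∑ i, X (v i) y - m * ∑ a, w a * X a y|).card : ℝ) =
        ∑ y : Y, if m * δ ≤ |∑ i, X (v i) y - m * ∑ a, w a * X a y| then ∏ i, w (v i) else 0 := by
      intro v
      rw [Finset.card_filter]
      push_cast
      rw [Finset.mul_sum]
      refine sum_congr rfl fun y _ => ?_
      split_ifs <;> simp
    simp_rw [e1]
    rw [Finset.sum_comm]
    calc _ ≤ ∑ _y : Y, 2 * Real.exp (-(m * δ ^ 2 / 4)) :=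
          sum_le_sum fun y _ => tail w (fun a => X a y) hw hw1 (fun a => hX a y) m δ hδ0 hδ
      _ = β := by rw [sum_const, card_univ, nsmul_eq_mul]
  obtain ⟨v0, hv0⟩ : ∃ v0 : Fin m → Ω, 0 < ∏ i, w (v0 i) := by
    by_contra hc
    push Not at hc
    have : ∑ v : Fin m → Ω, ∏ i, w (v i) ≤ 0 := Finset.sum_nonpos fun v _ => hc v
    linarith
  have h3 : ∑ v : Fin m → Ω, (∏ i, w (v i)) * β < ∑ v : Fin m → Ω, (∏ i, w (v i)) *
      ((univ.filter fun y : Y =>
        m * δ ≤ |∑ i, X (v i) y - m * ∑ a, w a * X a y|).card : ℝ) := by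
    refine Finset.sum_lt_sum (fun v _ => mul_le_mul_of_nonneg_left (hcon v).le
      (prod_nonneg fun i _ => hw _)) ⟨v0, mem_univ _, mul_lt_mul_of_pos_left (hcon v0) hv0⟩
  rw [← Finset.sum_mul, h1, one_mul] at h3
  linarith

end

end Pool.Agent.L0h67.CV
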