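import Pool.Agent.L0h67.CV.Interp
import Pool.Agent.L0h67.CV.Tail

/-!
A vote of circuits agrees, outside of a very small set, with a polynomial of low degree.
-/

set_option autoImplicit false

namespace Pool.Agent.L0h67.CV

open Finset Pool.Agent.W856.Corner

section

variable {p k s d n : ℕ} [Fact p.Prime]

/-- The random polynomials of a circuit. -/
lemma rand_poly {S : Set (V n)} (h : Computed p k s d S) (t : ℕ) (ht : 1 ≤ t) (e : ℕ)
    (he : e * s ≤ 2 ^ t) :
    ∃ (Ω : Type) (_ : Fintype Ω) (_ : Nonempty Ω) (P : Ω → V n → Bool),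
      (∀ w, LB (ZMod p) (k * ((p - 1) * t) ^ d) (P w)) ∧
      ∀ y, e * Nat.card {w // ¬ (P w y = true ↔ y ∈ S)} ≤ Fintype.card Ω := by
  classical
  obtain ⟨C, hs, hd, i, hi⟩ := h
  have hp := (Fact.out : p.Prime).two_le
  obtain ⟨P, hP, hbad⟩ := approx C t ht
  have hQ1 : 1 ≤ (p - 1) * t := Nat.one_le_iff_ne_zero.2 (by
    have : p - 1 ≠ 0 := by omega
    exact Nat.mul_ne_zero this (by omega))
  refine ⟨Om p C.N t, inferInstance, inferInstance, fun w => P w i, fun w =>
    LB_mono (Nat.mul_le_mul_left _ (Nat.pow_le_pow_right hQ1 (hd i))) (hP w i), fun y => ?_⟩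
  have h1 : Nat.card {w // ¬ (P w i y = true ↔ y ∈ S)} ≤
      Nat.card {w // ∃ i, P w i y ≠ C.val i y} := by
    rw [Nat.card_eq_fintype_card, Nat.card_eq_fintype_card, Fintype.card_subtype,
      Fintype.card_subtype]
    refine Finset.card_le_card fun w hw => ?_
    rw [Finset.mem_filter] at hw ⊢
    refine ⟨Finset.mem_univ _, i, fun heq => hw.2 ?_⟩
    rw [heq, hi y]
  set X := Nat.card {w // ¬ (P w i y = true ↔ y ∈ S)} with hX
  have h2 : X * 2 ^ t ≤ s * Fintype.card (Om p C.N t) :=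
    (Nat.mul_le_mul_right _ h1).trans ((hbad y).trans (Nat.mul_le_mul_right _ hs))
  rcases Nat.eq_zero_or_pos s with h0 | h0
  · rw [h0, zero_mul] at h2
    have : X = 0 := by
      rcases Nat.mul_eq_zero.1 (Nat.le_zero.1 h2) with h | h
      · exact h
      · exact absurd h (pow_ne_zero _ (by norm_num))
    rw [this]
    simp
  · have h4 : s * (e * X) ≤ s * Fintype.card (Om p C.N t) := by
      refine le_trans ?_ h2
      calc s * (e * X) = X * (e * s) := by ring
        _ ≤ _ := Nat.mul_le_mul_left _ he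
    exact Nat.le_of_mul_le_mul_left h4 h0

/-- The sign of a Boolean value. -/
noncomputable def sg (b : Bool) : ℝ := if b = true then 1 else -1

lemma abs_sg (b : Bool) : |sg b| = 1 := by cases b <;> simp [sg]

lemma sg_not (b : Bool) : sg (!b) = -sg b := by cases b <;> simp [sg]

lemma sum_sg {m : ℕ} (b : Fin m → V n → Bool) (y : V n) :
    ∑ i, sg (b i y) = 2 * (cnt b y : ℝ) - m := by
  have h1 : ∀ i, sg (b i y) = 2 * (if b i y = true then (1 : ℝ) else 0) - 1 := by
    intro i
    cases b i y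
    · simp [sg]
    · simp [sg]
      norm_num
  simp_rw [h1]
  rw [Finset.sum_sub_distrib, ← Finset.mul_sum, Finset.sum_boole]
  simp [cnt]

/-- The average sign of a random polynomial. -/
lemma avg_sg {Ω : Type} [Fintype Ω] [Nonempty Ω] (P : Ω → Bool) (q : Prop) (e : ℕ) (he : 1 ≤ e)
    (h : e * Nat.card {w // ¬ (P w = true ↔ q)} ≤ Fintype.card Ω) :
    |(∑ w, sg (P w)) / Fintype.card Ω - (open Classical in if q then (1 : ℝ) else -1)| ≤ 2 / e := by
  classical
  have hc : (0 : ℝ) < Fintype.card Ω := by exact_mod_cast Fintype.card_pos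
  have he' : (0 : ℝ) < e := by exact_mod_cast he
  set g : ℝ := if q then 1 else -1 with hg
  have h1 : (∑ w, sg (P w)) / Fintype.card Ω - g = (∑ w, (sg (P w) - g)) / Fintype.card Ω := by
    rw [Finset.sum_sub_distrib, Finset.sum_const, Finset.card_univ, nsmul_eq_mul]
    field_simp
  have h2 : |∑ w, (sg (P w) - g)| ≤ 2 * Nat.card {w // ¬ (P w = true ↔ q)} := by
    refine (Finset.abs_sum_le_sum_abs _ _).trans ?_
    have h3 : ∀ w, |sg (P w) - g| ≤ 2 * (if ¬ (P w = true ↔ q) then (1 : ℝ) else 0) := by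
      intro w
      by_cases hq : q
      · rw [hg, if_pos hq]
        cases hP : P w
        · simp [sg, hq]; norm_num
        · simp [sg, hq]
      · rw [hg, if_neg hq]
        cases hP : P w
        · simp [sg, hq]
        · simp [sg, hq]; norm_num
    refine (Finset.sum_le_sum fun w _ => h3 w).trans (le_of_eq ?_)
    rw [← Finset.mul_sum, Finset.sum_boole, Nat.card_eq_fintype_card, Fintype.card_subtype]
  rw [h1, abs_div, abs_of_pos hc, div_le_div_iff₀ hc he']
  have h4 : (e : ℝ) * Nat.card {w // ¬ (P w = true ↔ q)} ≤ Fintype.card Ω := by exact_mod_cast h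
  nlinarith

/-- The degree of the voters in the sample. -/
def voterDegree (p k s d M : ℕ) : ℕ := k * ((p - 1) * (Nat.clog 2 s + Nat.clog 2 M + 3)) ^ d

/-- A sample of the voters. -/
theorem vote_sample {M R : ℕ} (hM : 1 ≤ M) (hR : 1 ≤ R) {S : Set (V n)}
    (h : Voted p k s d M R S) (m : ℕ) :
    ∃ b : Fin m → V n → Bool, (∀ i, LB (ZMod p) (voterDegree p k s d M) (b i)) ∧
      ∃ B : Finset (V n), (B.card : ℝ) ≤ 2 ^ n * (2 * Real.exp (-(m / (16 * (M : ℝ) ^ 2)))) ∧
        ∀ y, y ∉ B →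
          (y ∈ S → (m : ℝ) < 2 * cnt b y ∧ (2 * cnt b y : ℝ) ≤ m + 2 * m * R / M) ∧
          (y ∉ S → (2 * cnt b y : ℝ) < m ∧ (m : ℝ) - 2 * m * R / M ≤ 2 * cnt b y) := by
  classical
  obtain ⟨N, c, F, hF, hc, hS, hS', hRv⟩ := h
  set t := Nat.clog 2 s + Nat.clog 2 M + 3 with ht
  have hMr : (1 : ℝ) ≤ M := by exact_mod_cast hM
  have hRr : (1 : ℝ) ≤ R := by exact_mod_cast hR
  have hM0 : (0 : ℝ) < M := by linarith
  have he : 8 * M * s ≤ 2 ^ t := by
    have h1 : s ≤ 2 ^ Nat.clog 2 s := Nat.le_pow_clog (by norm_num) s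
    have h2 : M ≤ 2 ^ Nat.clog 2 M := Nat.le_pow_clog (by norm_num) M
    have h3 : (2 : ℕ) ^ t = 2 ^ Nat.clog 2 s * 2 ^ Nat.clog 2 M * 8 := by
      rw [ht, pow_add, pow_add]
      norm_num
    rw [h3]
    calc 8 * M * s = s * M * 8 := by ring
      _ ≤ _ := Nat.mul_le_mul_right _ (Nat.mul_le_mul h1 h2)
  choose Ω inst1 inst2 P hP hPe using fun j => rand_poly (hF j) t (by omega) (8 * M) he
  let Ω' : Type := (Σ j, Ω j) ⊕ Bool
  let w : Ω' → ℝ := fun a => match a with
    | Sum.inl q => |c q.1| / (M * Fintype.card (Ω q.1))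
    | Sum.inr _ => (1 - (∑ j, |c j|) / M) / 2
  let β : Ω' → V n → Bool := fun a y => match a with
    | Sum.inl q => if 0 ≤ c q.1 then P q.1 q.2 y else !P q.1 q.2 y
    | Sum.inr b => b
  have hcard : ∀ j, (0 : ℝ) < Fintype.card (Ω j) := fun j => by exact_mod_cast Fintype.card_pos
  have hcM : (∑ j, |c j|) / M ≤ 1 := by rw [div_le_one hM0]; exact hc
  have hw : ∀ a, 0 ≤ w a := by
    rintro (q | b)
    · exact div_nonneg (abs_nonneg _) (mul_nonneg hM0.le (hcard _).le)
    · show 0 ≤ (1 - (∑ j, |c j|) / M) / 2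
      linarith
  have hw1 : ∑ a, w a = 1 := by
    rw [Fintype.sum_sum_type, Fintype.sum_sigma]
    have h1 : ∀ j, ∑ a : Ω j, w (Sum.inl ⟨j, a⟩) = |c j| / M := by
      intro j
      show ∑ _a : Ω j, |c j| / (M * Fintype.card (Ω j)) = _
      rw [Finset.sum_const, Finset.card_univ, nsmul_eq_mul]
      have := (hcard j).ne'
      field_simp
    simp_rw [h1]
    rw [← Finset.sum_div]
    show _ + ∑ _b : Bool, (1 - (∑ j, |c j|) / (M : ℝ)) / 2 = 1
    rw [Finset.sum_const, Finset.card_univ, Fintype.card_bool, nsmul_eq_mul]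
    push_cast
    ring
  -- the expectation
  have hE : ∀ y, |∑ a, w a * sg (β a y) - vote c F y / M| ≤ 1 / (4 * M) := by
    intro y
    have h1 : ∑ a, w a * sg (β a y) =
        ∑ j, c j / M * ((∑ a : Ω j, sg (P j a y)) / Fintype.card (Ω j)) := by
      rw [Fintype.sum_sum_type, Fintype.sum_sigma]
      have e1 : ∀ j, ∑ a : Ω j, w (Sum.inl ⟨j, a⟩) * sg (β (Sum.inl ⟨j, a⟩) y) =
          c j / M * ((∑ a : Ω j, sg (P j a y)) / Fintype.card (Ω j)) := by
        intro j
        have e2 : ∀ a : Ω j, w (Sum.inl ⟨j, a⟩) * sg (β (Sum.inl ⟨j, a⟩) y) =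
            c j / M * (sg (P j a y) / Fintype.card (Ω j)) := by
          intro a
          show |c j| / (M * Fintype.card (Ω j)) * sg (if 0 ≤ c j then P j a y else !P j a y) = _
          have := (hcard j).ne'
          split_ifs with h0
          · rw [abs_of_nonneg h0]
            field_simp
          · rw [sg_not, abs_of_neg (not_le.1 h0)]
            field_simp
        simp_rw [e2]
        rw [← Finset.mul_sum, ← Finset.sum_div]
      simp_rw [e1]
      have e3 : ∑ b : Bool, w (Sum.inr b) * sg (β (Sum.inr b) y) = 0 := by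
        show ∑ b : Bool, (1 - (∑ j, |c j|) / (M : ℝ)) / 2 * sg b = 0
        rw [Fintype.sum_bool]
        simp [sg]
      rw [e3, add_zero]
    have h2 : vote c F y / M = ∑ j, c j / M * (if y ∈ F j then (1 : ℝ) else -1) := by
      unfold vote
      rw [Finset.sum_div]
      refine sum_congr rfl fun j _ => ?_
      ring
    rw [h1, h2, ← Finset.sum_sub_distrib]
    have h3 : ∀ j, |c j / M * ((∑ a : Ω j, sg (P j a y)) / Fintype.card (Ω j)) -
        c j / M * (if y ∈ F j then (1 : ℝ) else -1)| ≤ |c j| / M * (1 / (4 * M)) := by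
      intro j
      rw [← mul_sub, abs_mul, abs_div, abs_of_pos hM0]
      refine mul_le_mul_of_nonneg_left ?_ (div_nonneg (abs_nonneg _) hM0.le)
      have h4 := avg_sg (P := fun a => P j a y) (y ∈ F j) (8 * M) (by omega) (hPe j y)
      refine h4.trans (le_of_eq ?_)
      push_cast
      field_simp
      norm_num
    calc _ ≤ ∑ j, |c j / M * ((∑ a : Ω j, sg (P j a y)) / Fintype.card (Ω j)) -
        c j / M * (if y ∈ F j then (1 : ℝ) else -1)| := Finset.abs_sum_le_sum_abs _ _
      _ ≤ ∑ j, |c j| / M * (1 / (4 * M)) := sum_le_sum fun j _ => h3 j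
      _ = (∑ j, |c j|) / M * (1 / (4 * M)) := by rw [← Finset.sum_mul, ← Finset.sum_div]
      _ ≤ 1 * (1 / (4 * M)) := mul_le_mul_of_nonneg_right hcM (by positivity)
      _ = _ := one_mul _
  obtain ⟨v, hv⟩ := exists_sample (Y := V n) w (fun a y => sg (β a y)) hw hw1
    (fun a y => (abs_sg _).le) m (1 / (2 * M)) (by positivity)
    (by rw [div_le_one (by positivity)]; linarith)
  refine ⟨fun i => β (v i), fun i => ?_, univ.filter fun y : V n =>
    m * (1 / (2 * (M : ℝ))) ≤ |∑ i, sg (β (v i) y) - m * ∑ a, w a * sg (β a y)|, ?_, fun y hy => ?_⟩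
  · have hLB : ∀ a, LB (ZMod p) (voterDegree p k s d M) (β a) := by
      rintro (q | b)
      · show LB (ZMod p) (voterDegree p k s d M)
          (fun y => if 0 ≤ c q.1 then P q.1 q.2 y else !P q.1 q.2 y)
        by_cases h0 : 0 ≤ c q.1
        · simp only [h0, if_true]
          exact hP q.1 q.2
        · simp only [h0, if_false]
          exact LB_not (hP q.1 q.2)
      · exact LB_const _ b
    exact hLB (v i)
  · refine hv.trans (le_of_eq ?_)
    have e1 : ((Fintype.card (V n) : ℕ) : ℝ) = 2 ^ n := by simp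
    have e2 : (m : ℝ) * (1 / (2 * M)) ^ 2 / 4 = m / (16 * (M : ℝ) ^ 2) := by
      rw [div_pow, one_pow, mul_pow, ← mul_div_assoc, mul_one, div_div]
      congr 1
      ring
    rw [e1, e2]
  · rw [Finset.mem_filter, not_and] at hy
    have h1 := hy (Finset.mem_univ _)
    rw [not_le] at h1
    have h2 := sum_sg (fun i => β (v i)) y
    rw [h2] at h1
    set C := (cnt (fun i => β (v i)) y : ℝ) with hC
    set E := ∑ a, w a * sg (β a y) with hEdef
    have h3 := abs_le.1 (hE y)
    rw [← hEdef] at h3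
    have h4 := abs_lt.1 h1
    have hm0 : (0 : ℝ) ≤ m := Nat.cast_nonneg m
    have e5 : (m : ℝ) * (1 / (2 * M)) = m / M / 2 := by field_simp
    have e6 : (m : ℝ) * (1 / (4 * M)) = m / M / 4 := by field_simp
    have hmM : 0 ≤ (m : ℝ) / M := by positivity
    have h5 : (m : ℝ) * E ≤ m * (vote c F y / M + 1 / (4 * M)) :=
      mul_le_mul_of_nonneg_left (by linarith) hm0
    have h6 : (m : ℝ) * (vote c F y / M - 1 / (4 * M)) ≤ m * E :=
      mul_le_mul_of_nonneg_left (by linarith) hm0
    have e7 : (m : ℝ) * (vote c F y / M + 1 / (4 * M)) = m / M * vote c F y + m / M / 4 := by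
      rw [mul_add, e6]; ring
    have e8 : (m : ℝ) * (vote c F y / M - 1 / (4 * M)) = m / M * vote c F y - m / M / 4 := by
      rw [mul_sub, e6]; ring
    rw [e7] at h5
    rw [e8] at h6
    rw [e5] at h4
    have hR1 := abs_le.1 (hRv y)
    have e9 : 2 * (m : ℝ) * R / M = 2 * (m / M * R) := by ring
    rw [e9]
    have h7 : (m : ℝ) / M * vote c F y ≤ m / M * R := mul_le_mul_of_nonneg_left hR1.2 hmM
    have h8 : (m : ℝ) / M * -R ≤ m / M * vote c F y := mul_le_mul_of_nonneg_left hR1.1 hmM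
    have h9 : (m : ℝ) / M * 1 ≤ m / M * R := mul_le_mul_of_nonneg_left hRr hmM
    refine ⟨fun hyS => ?_, fun hyS => ?_⟩
    · have h10 : (m : ℝ) / M * 1 ≤ m / M * vote c F y := mul_le_mul_of_nonneg_left (hS y hyS) hmM
      constructor <;> linarith
    · have h10 : (m : ℝ) / M * vote c F y ≤ m / M * -1 :=
        mul_le_mul_of_nonneg_left (hS' y hyS) hmM
      constructor <;> linarith

end

end Pool.Agent.L0h67.CV
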